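import Mathlib

set_option autoImplicit false
open Set Real

namespace Pool.Agent.Results.MP_174dab_an.Chords

/-- the set of lengths of horizontal chords -/
def H (f : ℝ → ℝ) : Set ℝ := {l ∈ Icc (0 : ℝ) 1 | ∃ x ∈ Icc l 1, f (x - l) = f x}

/-- the sine sum -/
noncomputable def g (n : ℕ) (x : ℝ) : ℝ := ∑ k ∈ Finset.Icc 1 n, sin (2 * π * k * x)

/-- the union of the intervals from k / (n + 1) to k / n -/
def V (n : ℕ) : Set ℝ := ⋃ k ∈ Finset.Icc 1 n, Ioo ((k : ℝ) / (n + 1)) (k / n)

theorem g_eq (n : ℕ) (x : ℝ) :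
    2 * sin (π * x) * g n x = cos (π * x) - cos ((2 * n + 1) * (π * x)) := by
  induction n with
  | zero => simp [g]
  | succ n ih =>
    rw [g, Finset.sum_Icc_succ_top (by omega), mul_add, ← g, ih]
    push_cast
    rw [show (2 * (n + 1) + 1 : ℝ) * (π * x) = 2 * π * (n + 1) * x + π * x by ring,
      show (2 * n + 1 : ℝ) * (π * x) = 2 * π * (n + 1) * x - π * x by ring, cos_add, cos_sub]
    ring

theorem g_eq2 (n : ℕ) (x : ℝ) : sin (π * x) * g n x = sin (π * (n * x)) * sin (π * ((n + 1) * x)) := by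
  have := g_eq n x
  rw [show (2 * n + 1 : ℝ) * (π * x) = π * ((n + 1) * x) + π * (n * x) by ring, cos_add] at this
  have e : cos (π * x) = cos (π * ((n + 1) * x) - π * (n * x)) := by congr 1; ring
  rw [e, cos_sub] at this
  linarith

theorem g_zero (n : ℕ) : g n 0 = 0 := by simp [g]

theorem g_refl (n : ℕ) (x : ℝ) : g n (1 - x) = -g n x := by
  rw [g, g, ← Finset.sum_neg_distrib]
  refine Finset.sum_congr rfl fun k _ => ?_
  rw [show 2 * π * k * (1 - x) = k * (2 * π) - 2 * π * k * x by ring, sin_nat_mul_two_pi_sub]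

theorem sp {x : ℝ} (h0 : 0 < x) (h1 : x < 1) : 0 < sin (π * x) :=
  sin_pos_of_pos_of_lt_pi (by positivity) (by nlinarith [pi_pos])

theorem sp0 {x : ℝ} (h0 : 0 ≤ x) (h1 : x ≤ 1) : 0 ≤ sin (π * x) :=
  sin_nonneg_of_nonneg_of_le_pi (by positivity) (by nlinarith [pi_pos])

theorem shift (k : ℕ) (x y : ℝ) :
    sin (π * x) * sin (π * y) = sin (π * (x - k)) * sin (π * (y - k)) := by
  rw [mul_sub, mul_sub, mul_comm π (k : ℝ), sin_sub_nat_mul_pi, sin_sub_nat_mul_pi]
  have : ((-1 : ℝ) ^ k) ^ 2 = 1 := by rw [← pow_mul, mul_comm, pow_mul]; simp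
  linear_combination (-(sin (π * x) * sin (π * y))) * this

theorem g_neg {n : ℕ} {l : ℝ} (h : l ∈ V n) : 0 < l ∧ l < 1 ∧ g n l < 0 := by
  simp only [V, mem_iUnion, Finset.mem_Icc, exists_prop] at h
  obtain ⟨k, ⟨h1, h2⟩, h3, h4⟩ := h
  have k1 : (1 : ℝ) ≤ k := by exact_mod_cast h1
  have k2 : (k : ℝ) ≤ n := by exact_mod_cast h2
  rw [div_lt_iff₀ (by linarith)] at h3
  rw [lt_div_iff₀ (by linarith)] at h4
  have l0 : 0 < l := by by_contra h; nlinarith
  have l1 : l < 1 := by by_contra h; nlinarith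
  refine ⟨l0, l1, ?_⟩
  have e := g_eq2 n l
  rw [shift k] at e
  have a := sp (x := k - n * l) (by linarith) (by linarith)
  have b := sp (x := (n + 1) * l - k) (by linarith) (by linarith)
  rw [show π * (k - n * l) = -(π * (n * l - k)) by ring, sin_neg] at a
  by_contra hn
  nlinarith [mul_nonneg (sp l0 l1).le (not_lt.mp hn), mul_pos a b]

theorem g_nonneg {n : ℕ} (j : ℕ) {l : ℝ} (h0 : 0 ≤ l) (h1 : l < 1) (h2 : j ≤ n * l)
    (h3 : (n + 1) * l ≤ j + 1) : 0 ≤ g n l := by
  rcases h0.eq_or_lt with rfl | h0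
  · rw [g_zero]
  have e := g_eq2 n l
  rw [shift j] at e
  have := mul_nonneg (sp0 (x := n * l - j) (by linarith) (by linarith))
    (sp0 (x := (n + 1) * l - j) (by linarith) (by linarith))
  rw [← e] at this
  exact nonneg_of_mul_nonneg_right this (sp h0 h1)

theorem core (a α φ δ : ℝ) (ha : 0 < sin a) (hb : 0 < sin (a + α)) (hα : 0 < sin α)
    (h : cos α < cos δ) : cos φ * sin (a + α) - cos (φ + δ) * sin a < sin α := by
  have h1 : (cos φ * sin (a + α) - cos (φ + δ) * sin a) ^ 2 +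
      (sin φ * sin (a + α) - sin (φ + δ) * sin a) ^ 2 =
      sin (a + α) ^ 2 + sin a ^ 2 - 2 * (sin a * sin (a + α)) * cos δ := by
    rw [cos_add φ, sin_add φ]
    linear_combination (sin (a + α) ^ 2 - 2 * sin a * sin (a + α) * cos δ +
      sin a ^ 2 * (sin δ ^ 2 + cos δ ^ 2)) * sin_sq_add_cos_sq φ + sin a ^ 2 * sin_sq_add_cos_sq δ
  have h2 : sin (a + α) ^ 2 + sin a ^ 2 - 2 * (sin a * sin (a + α)) * cos α = sin α ^ 2 := by
    rw [sin_add]
    linear_combination sin α ^ 2 * sin_sq_add_cos_sq a - sin a ^ 2 * sin_sq_add_cos_sq α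
  refine lt_of_pow_lt_pow_left₀ 2 hα.le ?_
  nlinarith [mul_pos ha hb, sq_nonneg (sin φ * sin (a + α) - sin (φ + δ) * sin a),
    mul_pos (mul_pos ha hb) (sub_pos.mpr h)]

theorem result (n : ℕ) (hn : 1 ≤ n) : H (g n) = Icc 0 1 \ V n := by
  ext l
  constructor
  · rintro ⟨hl, x, hx, h⟩
    refine ⟨hl, fun hV => ?_⟩
    obtain ⟨l0, l1, hg⟩ := g_neg hV
    rcases hx.1.eq_or_lt with rfl | x0
    · rw [sub_self, g_zero] at h; linarith
    rcases hx.2.eq_or_lt with rfl | x1
    · have := g_refl n 0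
      rw [sub_zero, g_zero] at this
      rw [g_refl, this] at h; linarith
    have ha := sp (x := x - l) (by linarith) (by linarith)
    have hb := sp (x := x) (by linarith) x1
    have e1 := g_eq n (x - l)
    have e2 := g_eq n x
    have e3 := g_eq n l
    have hx2 : π * x = π * (x - l) + π * l := by ring
    have := core (π * (x - l)) (π * l) ((2 * n + 1) * (π * (x - l))) ((2 * n + 1) * (π * l)) ha
      (hx2 ▸ hb) (sp l0 l1) (by nlinarith [mul_pos (sp l0 l1) (neg_pos.mpr hg)])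
    rw [← mul_add (2 * n + 1 : ℝ), ← hx2] at this
    have e4 : sin (π * l) = sin (π * x) * cos (π * (x - l)) - cos (π * x) * sin (π * (x - l)) := by
      rw [← sin_sub]; congr 1; ring
    rw [h] at e1
    have : sin (π * x) * (2 * sin (π * (x - l)) * g n x) = sin (π * (x - l)) * (2 * sin (π * x) * g n x) := by
      ring
    rw [e1, e2] at this
    linarith
  · rintro ⟨hl, hV⟩
    refine ⟨hl, ?_⟩
    rcases hl.2.eq_or_lt with rfl | l1
    · refine ⟨1, ⟨le_rfl, le_rfl⟩, ?_⟩
      have := g_refl n 0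
      rw [sub_zero, g_zero, neg_zero] at this
      rw [sub_self, g_zero, this]
    have n1 : (1 : ℝ) ≤ n := by exact_mod_cast hn
    set j := ⌊n * l⌋₊
    have j1 : (j : ℝ) ≤ n * l := Nat.floor_le (by nlinarith [hl.1])
    have j2 : n * l < j + 1 := Nat.lt_floor_add_one _
    have j3 : j < n := by
      have : (j : ℝ) < n := by nlinarith
      exact_mod_cast this
    have j4 : (j : ℝ) + 1 ≤ n := by exact_mod_cast j3
    have j5 : (n + 1) * l ≤ j + 1 := by
      by_contra h
      apply hV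
      simp only [V, mem_iUnion, Finset.mem_Icc, exists_prop]
      refine ⟨j + 1, ⟨by omega, by omega⟩, ?_, ?_⟩
      · rw [div_lt_iff₀ (by linarith)]; push_cast; linarith
      · rw [lt_div_iff₀ (by linarith)]; push_cast; linarith
    set x : ℝ := (j + 1) / (n + 1)
    have hx : (n + 1) * x = j + 1 := by simp only [x]; field_simp
    have j0 : (0 : ℝ) ≤ j := j.cast_nonneg
    have x0 : l ≤ x := by by_contra h; nlinarith
    have x1 : x < 1 := by by_contra h; nlinarith
    have x2 : 0 < x := by positivity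
    have gx : g n x = 0 := by
      have := g_eq2 n x
      rw [hx, show π * (j + 1) = ((j + 1 : ℕ) : ℝ) * π by push_cast; ring, sin_nat_mul_pi, mul_zero] at this
      exact (mul_eq_zero.mp this).resolve_left (sp x2 x1).ne'
    have h1 := g_nonneg (n := n) j hl.1 l1 j1 j5
    have h2 := g_nonneg (n := n) 0 (l := x - l) (by linarith) (by linarith [hl.1])
      (by simp; nlinarith) (by simp; nlinarith [hl.1])
    have hc : ContinuousOn (fun t => g n (t - l) - g n t) (Icc l x) := by
      unfold g; fun_prop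
    obtain ⟨t, ht, h⟩ := intermediate_value_Icc x0 hc (show (0 : ℝ) ∈ _ by
      simp only [sub_self, g_zero, gx]; constructor <;> linarith)
    exact ⟨t, ⟨ht.1, by linarith [ht.2]⟩, sub_eq_zero.mp h⟩

end Pool.Agent.Results.MP_174dab_an.Chords
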